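import Pool.Agent.W2helper5.QD.Stm

/-!
# Project QD, piece NB
-/

set_option autoImplicit false

namespace Pool.Agent.W2helper69.QD

open MeasureTheory Set Pool.V11275.Quad Pool.Agent.W2helper5.QD Pool.Agent.Helper717.Hull1 Pool.Agent.Helper717.Hull2

theorem w_per (m : ℕ) (hm : 3 ≤ m) (k : ℤ) : ∃ j : Fin m, w m k = w m (((j : ℕ) : ℤ)) := by
  have hm0 : (m : ℤ) ≠ 0 := by omega
  have hmpos : (0 : ℤ) < m := by omega
  have h1 : 0 ≤ k % (m : ℤ) := Int.emod_nonneg _ hm0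
  have h2 : k % (m : ℤ) < m := Int.emod_lt_of_pos _ hmpos
  refine ⟨⟨(k % (m : ℤ)).toNat, by omega⟩, ?_⟩
  have h3 : (((k % (m : ℤ)).toNat : ℕ) : ℤ) = k % (m : ℤ) := Int.toNat_of_nonneg h1
  have h4 : k = k % (m : ℤ) + m * (k / m) := (Int.emod_add_mul_ediv k m).symm
  show w m k = w m (((k % (m : ℤ)).toNat : ℕ) : ℤ)
  rw [h3]
  unfold w
  have hmR : (m : ℝ) ≠ 0 := by
    have : m ≠ 0 := by omega
    exact_mod_cast this
  have h5 : (2 * (k : ℝ) * al m) = 2 * ((k % (m : ℤ) : ℤ) : ℝ) * al m +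
      ((k / (m : ℤ) : ℤ) : ℝ) * (2 * Real.pi) := by
    have h6 : (k : ℝ) = ((k % (m : ℤ) : ℤ) : ℝ) + m * ((k / (m : ℤ) : ℤ) : ℝ) := by
      exact_mod_cast h4
    rw [h6, al]
    field_simp
  rw [h5]
  apply ext2
  · simp only [e_zero']
    exact Real.cos_add_int_mul_two_pi _ _
  · simp only [e_one']
    exact Real.sin_add_int_mul_two_pi _ _

/-- **NB** -/
theorem NB : P_NB := by
  intro hreg m hm η hη hη1
  obtain ⟨hB, ⟨ρ, hρ, hball⟩, -⟩ := hreg m hm
  have hconv : Convex ℝ (P m) := convex_convexHull ℝ _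
  refine ⟨η * ρ, mul_pos hη hρ, ?_⟩
  intro v hv
  -- the difference of the vertices
  have hdiff : ∀ k : Fin m, ∀ s : ℝ, (s = 1 ∨ s = -1) →
      η⁻¹ • (s • (v k - w m ((k : ℕ) : ℤ))) ∈ P m := by
    intro k s hs
    apply hball
    have h1 : ‖v k - w m ((k : ℕ) : ℤ)‖ < η * ρ := by rw [← dist_eq_norm]; exact hv k
    have hs1 : |s| = 1 := by rcases hs with h | h <;> simp [h]
    rw [norm_smul, norm_smul, Real.norm_eq_abs, Real.norm_eq_abs, hs1, one_mul,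
      abs_of_pos (inv_pos.2 hη)]
    calc η⁻¹ * ‖v k - w m ((k : ℕ) : ℤ)‖ ≤ η⁻¹ * (η * ρ) :=
          mul_le_mul_of_nonneg_left h1.le (inv_pos.2 hη).le
      _ = ρ := by field_simp
  have hwP : ∀ k : ℤ, w m k ∈ P m := fun k => subset_convexHull ℝ _ ⟨k, rfl⟩
  constructor
  · intro x hx
    by_contra hcon
    have hcl : IsClosed (convexHull ℝ (range v)) := (finite_range v).isClosed_convexHull (𝕜 := ℝ)
    obtain ⟨f, u, hf1, hf2⟩ := geometric_hahn_banach_closed_point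
      (convex_convexHull ℝ (range v)) hcl hcon
    have : Nonempty (Fin m) := ⟨⟨0, by omega⟩⟩
    obtain ⟨k0, hk0⟩ := Finite.exists_max (fun k : Fin m => f (w m ((k : ℕ) : ℤ)))
    have hle : ∀ y ∈ P m, f y ≤ f (w m ((k0 : ℕ) : ℤ)) := by
      intro y hy
      have hc : Convex ℝ {y : E2 | f y ≤ f (w m ((k0 : ℕ) : ℤ))} :=
        convex_halfSpace_le f.isLinear _
      refine convexHull_min ?_ hc hy
      rintro _ ⟨k, rfl⟩
      obtain ⟨j, hj⟩ := w_per m hm k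
      show f (w m k) ≤ _
      rw [hj]
      exact hk0 j
    have h1 := hf1 (v k0) (subset_convexHull ℝ _ ⟨k0, rfl⟩)
    have h2 := hle _ (hdiff k0 (-1) (Or.inr rfl))
    have h3 := hle x hx
    rw [map_smul, map_smul, map_sub, smul_eq_mul, smul_eq_mul] at h2
    rw [map_smul, smul_eq_mul] at hf2
    have h4 : -1 * (f (v k0) - f (w m ((k0 : ℕ) : ℤ))) ≤ η * f (w m ((k0 : ℕ) : ℤ)) := by
      have := mul_le_mul_of_nonneg_left h2 hη.le
      rwa [← mul_assoc, mul_inv_cancel₀ hη.ne', one_mul] at this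
    have h5 : (1 - η) * f x ≤ (1 - η) * f (w m ((k0 : ℕ) : ℤ)) :=
      mul_le_mul_of_nonneg_left h3 (by linarith)
    nlinarith
  · intro x hx
    have hη' : (0 : ℝ) < 1 + η := by linarith
    have hmem : (1 + η)⁻¹ • x ∈ P m := by
      have hc : Convex ℝ {x : E2 | (1 + η)⁻¹ • x ∈ P m} := by
        have := hconv.is_linear_preimage (f := fun x : E2 => (1 + η)⁻¹ • x)
          (IsLinearMap.isLinearMap_smul _)
        exact this
      refine convexHull_min ?_ hc hx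
      rintro _ ⟨k, rfl⟩
      show (1 + η)⁻¹ • v k ∈ P m
      have h1 := hconv (hwP ((k : ℕ) : ℤ)) (hdiff k 1 (Or.inl rfl))
        (a := (1 + η)⁻¹) (b := (1 + η)⁻¹ * η) (inv_pos.2 hη').le
        (mul_nonneg (inv_pos.2 hη').le hη.le) (by field_simp)
      have h2 : (1 + η)⁻¹ • w m ((k : ℕ) : ℤ) +
          ((1 + η)⁻¹ * η) • (η⁻¹ • ((1 : ℝ) • (v k - w m ((k : ℕ) : ℤ)))) =
          (1 + η)⁻¹ • v k := by
        rw [one_smul, smul_smul, mul_assoc, mul_inv_cancel₀ hη.ne', mul_one, ← smul_add,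
          add_sub_cancel]
      rwa [h2] at h1
    refine ⟨(1 + η)⁻¹ • x, hmem, ?_⟩
    rw [smul_smul, mul_inv_cancel₀ hη'.ne', one_smul]

end Pool.Agent.W2helper69.QD
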